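import Pool.Agent.H607.G.R_pool_sql_team_seeded_f72693b1.W206.ND.Stm

/-!
Project ND (helper206): normality from exponential sums.
-/

set_option autoImplicit false

namespace Pool.Agent.W736.ND.NM

open Filter Topology Finset Pool.Agent.W206.ND

theorem main : S_AP → S_DG → S_WB → S_DM → S_NM := by
  intro hAP hDG hWB hDM b n ξ hb hAV m hm D
  obtain ⟨a, ha, hbox⟩ := hDM hDG b n m D hb
  have hb0 : (0 : ℝ) < b := by exact_mod_cast (by omega : 0 < b)
  have hbm : (0 : ℝ) < 1 / (b : ℝ) ^ m := by positivity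
  have hW := hWB hAP n (fun i j => ξ j * (b : ℝ) ^ i) (by
    intro h hh
    have h1 := hAV h hh
    unfold AV at h1
    refine h1.congr (fun N => ?_)
    congr 1
    refine Finset.sum_congr rfl fun i _ => ?_
    congr 1
    rw [Int.cast_one, one_mul, Finset.sum_mul]
    exact Finset.sum_congr rfl fun j _ => by ring)
    a (fun j => a j + 1 / (b : ℝ) ^ m) (fun j => ⟨(ha j).1, by linarith, (ha j).2⟩)
  have hprod : ∏ j : Fin n, ((a j + 1 / (b : ℝ) ^ m) - a j) = 1 / (b : ℝ) ^ (m * n) := by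
    have e : ∀ j : Fin n, (a j + 1 / (b : ℝ) ^ m) - a j = 1 / (b : ℝ) ^ m := fun j => by ring
    rw [Finset.prod_congr rfl fun j _ => e j, Finset.prod_const, Finset.card_univ,
      Fintype.card_fin, one_div_pow, ← pow_mul]
  rw [hprod] at hW
  refine hW.congr (fun N => ?_)
  congr 2
  refine Finset.card_bij (fun i _ => i + 1) ?_ ?_ ?_
  · intro i hi
    rw [Finset.mem_filter, Finset.mem_range] at hi
    rw [Finset.mem_filter, Finset.mem_Icc]
    exact ⟨⟨by omega, by omega⟩, (hbox ξ i).2 hi.2⟩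
  · intro i _ j _ h
    exact Nat.succ_injective h
  · intro i hi
    rw [Finset.mem_filter, Finset.mem_Icc] at hi
    obtain ⟨i, rfl⟩ : ∃ k, i = k + 1 := ⟨i - 1, by omega⟩
    refine ⟨i, ?_, rfl⟩
    rw [Finset.mem_filter, Finset.mem_range]
    exact ⟨by omega, (hbox ξ i).1 hi.2⟩

end Pool.Agent.W736.ND.NM
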